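import Mathlib
import Pool.Agent.Y591.SK.Main

set_option autoImplicit false

namespace Pool.Agent.Results.MP_1195b1_lc.RandomizedDichotomy

open Pool.Agent.Results.MP_1195b1_lc.OracleLowerBound (QueryAlg IsInput Feasible oracle pBase)
open Pool.Agent.Y591.SK
open scoped ENNReal

/-- **Skew-supermodular colouring with two prescribed class sizes in the value-oracle model:
exponential randomized and nondeterministic lower bounds for all class sizes with a gap of at least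
two.**

1. Let `n₂ + 2 ≤ n₁`, `m₁, m₂, n₂ ≥ 1`, `m₁ (n₁ - n₂) ≥ 3`, `n = m₁ n₁ + m₂ n₂` and
   `x = ⌊m₁ (n₁ - n₂ - 1) / 4⌋`. There is one fixed (known) intersecting supermodular `p₂` such that
   `(-|·|, p₂)` is a feasible input, and
   * if a randomized algorithm errs with probability at most `δ` on all inputs `(p₁, p₂)` with this
     `p₂`, then on `(-|·|, p₂)` its expected number of calls is at least `(1 - 2 δ) (4 / 3) ^ x`;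
   * if `C` is a set of questions to `p₁` whose answers on `(-|·|, p₂)` certify feasibility among
     the inputs `(p₁, p₂)`, then `|C| ≥ (4 / 3) ^ x`.
2. In contrast, infeasibility is always certified by at most `2 n + 2` values of `p₁` and `p₂`.
3. For all fixed class sizes `n₁, n₂` and `δ < 1 / 2`: a randomized algorithm with error at most `δ`
   and polynomially many expected calls exists if and only if `|n₁ - n₂| ≤ 1`.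
4. Negative answer to Q1 in the value-oracle model, for randomized algorithms: for no `δ < 1 / 2`
   is there a randomized algorithm which decides the existence of a feasible partition for all
   inputs with error at most `δ` and polynomially many expected calls. -/
theorem result :
    (∀ n m₁ m₂ n₁ n₂ : ℕ, 0 < m₁ → 0 < m₂ → 0 < n₂ → n₂ + 2 ≤ n₁ → 3 ≤ m₁ * (n₁ - n₂) →
      m₁ * n₁ + m₂ * n₂ = n →
      ∃ p₂ : Finset (Fin n) → ℤ, IntersectingSupermodular p₂ ∧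
        IsInput n m₁ m₂ n₁ n₂ (fun X => -(X.card : ℤ)) p₂ ∧
        Feasible n m₁ m₂ n₁ n₂ (fun X => -(X.card : ℤ)) p₂ ∧
        (∀ (D : RandAlg n) (δ : ℝ≥0∞),
          (∀ p₁ : Finset (Fin n) → ℤ, IsInput n m₁ m₂ n₁ n₂ p₁ p₂ →
            ErrorAtMost D m₁ m₂ n₁ n₂ p₁ p₂ δ) →
          (1 - 2 * δ) * (4 / 3) ^ (m₁ * (n₁ - n₂ - 1) / 4) ≤
            expectedCalls D (oracle (fun X => -(X.card : ℤ)) p₂)) ∧
        (∀ C : Finset (Finset (Fin n)),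
          (∀ p₁ : Finset (Fin n) → ℤ, IsInput n m₁ m₂ n₁ n₂ p₁ p₂ →
            (∀ X ∈ C, p₁ X = -(X.card : ℤ)) → Feasible n m₁ m₂ n₁ n₂ p₁ p₂) →
          (4 / 3 : ℝ) ^ (m₁ * (n₁ - n₂ - 1) / 4) ≤ C.card)) ∧
    (∀ (n m₁ m₂ n₁ n₂ : ℕ) (p₁ p₂ : Finset (Fin n) → ℤ), IsInput n m₁ m₂ n₁ n₂ p₁ p₂ →
      ¬ Feasible n m₁ m₂ n₁ n₂ p₁ p₂ →
      ∃ F G : Finset (Finset (Fin n)), F.card + G.card ≤ 2 * n + 2 ∧
        ∀ q₁ q₂ : Finset (Fin n) → ℤ, IsInput n m₁ m₂ n₁ n₂ q₁ q₂ →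
          (∀ X ∈ F, q₁ X = p₁ X) → (∀ X ∈ G, q₂ X = p₂ X) →
          ¬ Feasible n m₁ m₂ n₁ n₂ q₁ q₂) ∧
    (∀ n₁ n₂ : ℕ, 0 < n₁ → 0 < n₂ → ∀ δ : ℝ≥0∞, δ < 1 / 2 →
      ((∃ (p : Polynomial ℕ) (D : ∀ n : ℕ, ℕ → ℕ → RandAlg n),
        ∀ (n m₁ m₂ : ℕ) (p₁ p₂ : Finset (Fin n) → ℤ), IsInput n m₁ m₂ n₁ n₂ p₁ p₂ →
          expectedCalls (D n m₁ m₂) (oracle p₁ p₂) ≤ ((p.eval n : ℕ) : ℝ≥0∞) ∧
          ErrorAtMost (D n m₁ m₂) m₁ m₂ n₁ n₂ p₁ p₂ δ) ↔ n₁ ≤ n₂ + 1 ∧ n₂ ≤ n₁ + 1)) ∧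
    (∀ δ : ℝ≥0∞, δ < 1 / 2 →
      ¬ ∃ (p : Polynomial ℕ) (D : ∀ n : ℕ, ℕ → ℕ → ℕ → ℕ → RandAlg n),
        ∀ (n m₁ m₂ n₁ n₂ : ℕ) (p₁ p₂ : Finset (Fin n) → ℤ), IsInput n m₁ m₂ n₁ n₂ p₁ p₂ →
          expectedCalls (D n m₁ m₂ n₁ n₂) (oracle p₁ p₂) ≤ ((p.eval n : ℕ) : ℝ≥0∞) ∧
          ErrorAtMost (D n m₁ m₂ n₁ n₂) m₁ m₂ n₁ n₂ p₁ p₂ δ) := by
  refine ⟨fun n m₁ m₂ n₁ n₂ hm₁ hm₂ hn₂ hgap hρ hn => ?_,
    fun n m₁ m₂ n₁ n₂ p₁ p₂ h hf => infeasible_cert h hf,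
    fun n₁ n₂ hn₁ hn₂ δ hδ => dichotomy n₁ n₂ hn₁ hn₂ δ hδ, ?_⟩
  · have hn₁ : 0 < n₁ := by omega
    refine ⟨pBlk n₂ (m₁ + m₂), inter_blk n₂ (m₁ + m₂), input_base hm₁ hm₂ hn₁ hn₂ hn,
      feasible_base hm₁ hm₂ hn₁ hn₂ (by omega) hn, fun D δ hD => ?_, fun C hC => ?_⟩
    · have h := main_bound hm₁ hm₂ hn₂ hgap hρ hn D δ hD
      have h3 : (3 : ℝ≥0∞) ^ (m₁ * (n₁ - n₂ - 1) / 4) ≠ 0 := pow_ne_zero _ (by norm_num)
      have h3' : (3 : ℝ≥0∞) ^ (m₁ * (n₁ - n₂ - 1) / 4) ≠ ⊤ :=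
        ENNReal.pow_ne_top (by norm_num)
      rw [← ENNReal.mul_le_mul_iff_right h3 h3']
      refine le_trans (le_of_eq ?_) h
      have h4 : (3 : ℝ≥0∞) ^ (m₁ * (n₁ - n₂ - 1) / 4) * (4 / 3) ^ (m₁ * (n₁ - n₂ - 1) / 4) =
          4 ^ (m₁ * (n₁ - n₂ - 1) / 4) := by
        rw [← mul_pow, ENNReal.mul_div_cancel (by norm_num) (by norm_num)]
      rw [← h4]
      ring
    · have h := cert_bound hm₁ hm₂ hn₂ hgap hρ hn C hC
      have h' : (4 : ℝ) ^ (m₁ * (n₁ - n₂ - 1) / 4) ≤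
          3 ^ (m₁ * (n₁ - n₂ - 1) / 4) * C.card := by exact_mod_cast h
      rw [div_pow, div_le_iff₀ (by positivity)]
      exact h'.trans (le_of_eq (mul_comm _ _))
  · rintro δ hδ ⟨p, D, hD⟩
    have h := (dichotomy 3 1 (by norm_num) (by norm_num) δ hδ).1
      ⟨p, fun n m₁ m₂ => D n m₁ m₂ 3 1, fun n m₁ m₂ p₁ p₂ hin => hD n m₁ m₂ 3 1 p₁ p₂ hin⟩
    omega

end Pool.Agent.Results.MP_1195b1_lc.RandomizedDichotomy
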